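import Pool.Agent.H7.KR.Stmts

/-!
# Row CLM of the board kr (MP_fd41b2_co)
-/

set_option autoImplicit false

open Finset

namespace Pool.KR

open Pool.Agent.H23.KT Pool.Agent.H46.KW Pool.KQ

/-- Vertices of a part with many nonneighbours in the other parts. -/
theorem clm_bad {V : Type} (G : SimpleGraph V) {b : ℕ} (P : Fin b → Finset V) (j : Fin b) (s : ℝ)
    (B : Finset V) (hB : B ⊆ P j)
    (h : ∀ u ∈ B, s ≤ ((∑ k ∈ univ.erase j, (non G (P k) u).card : ℕ) : ℝ)) :
    (B.card : ℝ) * s ≤ (tot G P : ℝ) := by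
  have h1 : (B.card : ℝ) * s ≤
      ((∑ u ∈ B, ∑ k ∈ univ.erase j, (non G (P k) u).card : ℕ) : ℝ) := by
    rw [← nsmul_eq_mul, Nat.cast_sum]
    exact Finset.card_nsmul_le_sum B _ s h
  have h2 : (∑ u ∈ B, ∑ k ∈ univ.erase j, (non G (P k) u).card) ≤
      ∑ u ∈ P j, ∑ k ∈ univ.erase j, (non G (P k) u).card :=
    Finset.sum_le_sum_of_subset hB
  have h3 : (∑ u ∈ P j, ∑ k ∈ univ.erase j, (non G (P k) u).card) =
      ∑ k ∈ univ.erase j, ∑ u ∈ P j, (non G (P k) u).card := Finset.sum_comm
  have h4 : ∑ k ∈ univ.erase j, ∑ u ∈ P j, (non G (P k) u).card ≤ tot G P := by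
    unfold tot
    exact Finset.single_le_sum
      (f := fun i => ∑ k ∈ univ.erase i, ∑ u ∈ P i, (non G (P k) u).card)
      (fun i _ => Nat.zero_le _) (Finset.mem_univ j)
  have h5 : (∑ u ∈ B, ∑ k ∈ univ.erase j, (non G (P k) u).card) ≤ tot G P :=
    h2.trans (h3.le.trans h4)
  have h6 : ((∑ u ∈ B, ∑ k ∈ univ.erase j, (non G (P k) u).card : ℕ) : ℝ) ≤ (tot G P : ℝ) := by
    exact_mod_cast h5
  exact h1.trans h6

/-- One step: counting in the neighbourhood of `u`. -/
theorem clm_count {V : Type} [Fintype V] [DecidableEq V] (G : SimpleGraph V) (z u : V)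
    (A B : Finset V) (hAB : Disjoint A B) :
    A.card + (non G B z).card + (nb G (nb G univ z) u).card ≤
      (nb G univ u).card + (non G A u).card + (nb G A z).card + (non G B u).card := by
  classical
  set N := nb G univ u with hN
  set NN := nb G (nb G univ z) u with hNN
  set A' := (nb G A u).filter (fun y => ¬ G.Adj z y) with hA'
  set B' := (nb G B u).filter (fun y => ¬ G.Adj z y) with hB'
  have d1 : Disjoint A' B' := by
    rw [Finset.disjoint_left]
    intro y hy hy'
    have k1 := (mem_nb G).1 (Finset.mem_filter.1 hy).1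
    have k2 := (mem_nb G).1 (Finset.mem_filter.1 hy').1
    exact Finset.disjoint_left.1 hAB k1.1 k2.1
  have d2 : Disjoint (A' ∪ B') NN := by
    rw [Finset.disjoint_left]
    intro y hy hy'
    have k1 := (mem_nb G).1 hy'
    have k2 := (mem_nb G).1 k1.1
    rcases Finset.mem_union.1 hy with h | h
    · exact (Finset.mem_filter.1 h).2 k2.2
    · exact (Finset.mem_filter.1 h).2 k2.2
  have s1 : (A' ∪ B') ∪ NN ⊆ N := by
    intro y hy
    rw [hN, mem_nb]
    refine ⟨Finset.mem_univ _, ?_⟩
    rcases Finset.mem_union.1 hy with h | h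
    · rcases Finset.mem_union.1 h with h | h
      · exact ((mem_nb G).1 (Finset.mem_filter.1 h).1).2
      · exact ((mem_nb G).1 (Finset.mem_filter.1 h).1).2
    · exact ((mem_nb G).1 h).2
  have c1 : A'.card + B'.card + NN.card ≤ N.card := by
    have := Finset.card_le_card s1
    rw [Finset.card_union_of_disjoint d2, Finset.card_union_of_disjoint d1] at this
    exact this
  have c2 : A.card ≤ A'.card + (non G A u).card + (nb G A z).card := by
    have s2 : A ⊆ (A' ∪ non G A u) ∪ nb G A z := by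
      intro y hy
      by_cases h1 : G.Adj z y
      · exact Finset.mem_union_right _ ((mem_nb G).2 ⟨hy, h1⟩)
      · apply Finset.mem_union_left
        by_cases h2 : G.Adj u y
        · apply Finset.mem_union_left
          exact Finset.mem_filter.2 ⟨(mem_nb G).2 ⟨hy, h2⟩, h1⟩
        · apply Finset.mem_union_right
          unfold non
          exact Finset.mem_filter.2 ⟨hy, h2⟩
    have k1 := Finset.card_le_card s2
    have k2 := Finset.card_union_le (A' ∪ non G A u) (nb G A z)
    have k3 := Finset.card_union_le A' (non G A u)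
    omega
  have c3 : (non G B z).card ≤ B'.card + (non G B u).card := by
    have s3 : non G B z ⊆ B' ∪ non G B u := by
      intro y hy
      unfold non at hy
      have hy1 := Finset.mem_filter.1 hy
      by_cases h2 : G.Adj u y
      · apply Finset.mem_union_left
        exact Finset.mem_filter.2 ⟨(mem_nb G).2 ⟨hy1.1, h2⟩, hy1.2⟩
      · apply Finset.mem_union_right
        unfold non
        exact Finset.mem_filter.2 ⟨hy1.1, h2⟩
    have k1 := Finset.card_le_card s3
    have k2 := Finset.card_union_le B' (non G B u)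
    omega
  omega

theorem clm : CLMStmt := by
  intro p C c₁ hc hc'
  have he1 : 0 < e1 p := by
    unfold e1
    positivity
  obtain ⟨n1, hn1⟩ := exists_nat_gt (C / c₁ ^ 2)
  obtain ⟨n2, hn2⟩ := exists_nat_gt (64 * ((p : ℝ) + 2) / (11 * e1 p))
  refine ⟨max (max n1 n2) 1, ?_⟩
  intro a ha V _ _ G hG v e P U hS he0 he z hz hz1 i j l hji hli hlj hi hj
  have ha1 : (n1 : ℝ) ≤ a := by
    exact_mod_cast le_trans (le_max_left _ _) (le_trans (le_max_left _ _) ha)
  have ha2 : (n2 : ℝ) ≤ a := by
    exact_mod_cast le_trans (le_max_right _ _) (le_trans (le_max_left _ _) ha)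
  have ha3 : (1 : ℝ) ≤ a := by
    exact_mod_cast le_trans (le_max_right _ _) ha
  have hapos : (0 : ℝ) < a := by linarith
  classical
  have hB2 : (((P j).filter (fun u => c₁ * a <
      ((∑ k ∈ univ.erase j, (non G (P k) u).card : ℕ) : ℝ))).card : ℝ) * (c₁ * a) ≤ C * a :=
    (clm_bad G P j (c₁ * a) _ (Finset.filter_subset _ _)
      (fun u hu => (Finset.mem_filter.1 hu).2.le)).trans hS.tot
  set B2 := (P j).filter (fun u => c₁ * a <
      ((∑ k ∈ univ.erase j, (non G (P k) u).card : ℕ) : ℝ)) with hB2def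
  have hB2' : (B2.card : ℝ) ≤ c₁ * a := by
    have k1 : (B2.card : ℝ) * c₁ ≤ C := by
      have : ((B2.card : ℝ) * c₁) * a ≤ C * a := by nlinarith
      exact le_of_mul_le_mul_right this hapos
    have k2 : C < c₁ ^ 2 * a := by
      have : C / c₁ ^ 2 < a := lt_of_lt_of_le hn1 ha1
      rw [div_lt_iff₀ (by positivity)] at this
      linarith
    by_contra hcon
    push_neg at hcon
    have k3 : c₁ * a * c₁ < (B2.card : ℝ) * c₁ := mul_lt_mul_of_pos_right hcon hc
    nlinarith
  obtain ⟨u, huS, hu1, hu2⟩ : ∃ u ∈ nb G (P j) z,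
      ¬ (((nb G (nb G univ z) u).card : ℝ) < ((p : ℝ) + 2 - c₁) * a) ∧ u ∉ B2 := by
    by_contra hno
    push_neg at hno
    have hsub : nb G (P j) z ⊆ ((nb G univ z).filter (fun x =>
        ((nb G (nb G univ z) x).card : ℝ) < ((p : ℝ) + 2 - c₁) * a)) ∪ B2 := by
      intro y hy
      by_cases h : ((nb G (nb G univ z) y).card : ℝ) < ((p : ℝ) + 2 - c₁) * a
      · apply Finset.mem_union_left
        exact Finset.mem_filter.2 ⟨(mem_nb G).2 ⟨Finset.mem_univ _, ((mem_nb G).1 hy).2⟩, h⟩
      · exact Finset.mem_union_right _ (hno y hy (not_lt.1 h))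
    have k1 := (Finset.card_le_card hsub).trans (Finset.card_union_le _ _)
    have k2 : ((nb G (P j) z).card : ℝ) ≤ (((nb G univ z).filter (fun x =>
        ((nb G (nb G univ z) x).card : ℝ) < ((p : ℝ) + 2 - c₁) * a)).card : ℝ) +
        (B2.card : ℝ) := by exact_mod_cast k1
    linarith
  have huP : u ∈ P j := ((mem_nb G).1 huS).1
  have hsum : ((∑ k ∈ univ.erase j, (non G (P k) u).card : ℕ) : ℝ) ≤ c₁ * a := by
    by_contra h
    exact hu2 (Finset.mem_filter.2 ⟨huP, not_le.1 h⟩)
  have htwo : (non G (P i) u).card + (non G (P l) u).card ≤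
      ∑ k ∈ univ.erase j, (non G (P k) u).card := by
    have hsub : ({i, l} : Finset (Fin (p + 3))) ⊆ univ.erase j := by
      intro k hk
      rw [Finset.mem_insert, Finset.mem_singleton] at hk
      rcases hk with rfl | rfl
      · exact Finset.mem_erase.2 ⟨fun h => hji h.symm, Finset.mem_univ _⟩
      · exact Finset.mem_erase.2 ⟨hlj, Finset.mem_univ _⟩
    have := Finset.sum_le_sum_of_subset (f := fun k => (non G (P k) u).card) hsub
    rw [Finset.sum_pair (fun h => hli h.symm)] at this
    exact this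
  have htwo' : ((non G (P i) u).card : ℝ) + ((non G (P l) u).card : ℝ) ≤ c₁ * a := by
    have : ((non G (P i) u).card : ℝ) + ((non G (P l) u).card : ℝ) ≤
        ((∑ k ∈ univ.erase j, (non G (P k) u).card : ℕ) : ℝ) := by exact_mod_cast htwo
    linarith
  have hcount := clm_count G z u (P i) (P l) (hS.par.dis i l (fun h => hli h.symm))
  have hcount' : ((P i).card : ℝ) + ((non G (P l) z).card : ℝ) +
      ((nb G (nb G univ z) u).card : ℝ) ≤ ((nb G univ u).card : ℝ) +
      ((non G (P i) u).card : ℝ) + ((nb G (P i) z).card : ℝ) + ((non G (P l) u).card : ℝ) := by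
    exact_mod_cast hcount
  have hdeg : ((nb G univ u).card : ℝ) ≤ ((p : ℝ) + 3) * a + (p + 2) := by
    exact_mod_cast hG.deg u
  have hlo := hS.lo i
  have hu1' := not_lt.1 hu1
  have hbig : 64 * ((p : ℝ) + 2) < 11 * e1 p * a := by
    have : 64 * ((p : ℝ) + 2) / (11 * e1 p) < a := lt_of_lt_of_le hn2 ha2
    rw [div_lt_iff₀ (by positivity)] at this
    linarith
  have g1 : ((non G (P l) z).card : ℝ) ≤ (3 * c₁ + e) * a + (p + 2) := by nlinarith
  have g2 : c₁ * a ≤ e1 p / 64 * a := mul_le_mul_of_nonneg_right hc' hapos.le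
  have g3 : e * a ≤ e1 p / 32 * a := mul_le_mul_of_nonneg_right he hapos.le
  nlinarith

end Pool.KR
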